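import Mathlib

set_option autoImplicit false

namespace Pool.Agent.Results.MP_74a3a5_co.Cex

open SimpleGraph

def Rep {V : Type} [DecidableEq V] (G : SimpleGraph V) (k : ℕ) : Prop :=
  ∃ w : List V, (∀ v, w.count v = k) ∧
    ∀ x y, x ≠ y → (G.Adj x y ↔ (w.filter fun z => z = x ∨ z = y).IsChain (· ≠ ·))

theorem result : ∃ m n : ℕ, 3 ≤ m ∧ 3 ≤ n ∧ 8 ≤ m + n ∧ Rep (cycleGraph m □ cycleGraph n) 3 := by
  refine ⟨3, 5, by norm_num, by norm_num, by norm_num,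
    ([0, 11, 6, 10, 2, 1, 12, 11, 8, 7, 3, 2, 13, 12, 9, 8, 5, 4, 6, 7, 0, 14, 9, 1, 10, 5, 3, 4, 13,
      8, 2, 11, 3, 12, 14, 13, 9, 0, 4, 10, 14, 6, 5, 7, 1] : List ℕ).map
      fun i => (Fin.ofNat 3 (i / 5), Fin.ofNat 5 i), by decide +kernel, ?_⟩
  simp only [boxProd_adj]
  decide +kernel

end Pool.Agent.Results.MP_74a3a5_co.Cex
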